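import Mathlib
import Pool.Agent.Q112.NonCommuting

/-!
# The non-commuting number of `UU_4(F_q)` is not a polynomial in `q`
-/

namespace Pool.Agent.Results.MP_55cbc6_al.NotPolynomial

open Pool.Agent.Q112.UU

/-- With `q` the order of the finite field `F`: `ω(UU_4(F)) ≥ q³ + q² - q + 1` if `q` is even,
`ω(UU_4(F)) ≤ q³ + q² - q` if `q` is odd, and there is no polynomial `P` with
`ω(UU_4(F_q)) = P(q)` for all sufficiently large `q`. -/
theorem result :
    (∀ (F : Type) [Field F] [Fintype F],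
      (Even (Fintype.card F) → Fintype.card F ^ 3 + Fintype.card F ^ 2 + 1 ≤
        omega 4 F + Fintype.card F) ∧
      (¬ Even (Fintype.card F) → omega 4 F + Fintype.card F ≤
        Fintype.card F ^ 3 + Fintype.card F ^ 2)) ∧
    ¬ ∃ (P : Polynomial ℝ) (q₀ : ℕ), ∀ (F : Type) [Field F] [Fintype F],
      q₀ ≤ Fintype.card F → (omega 4 F : ℝ) = P.eval (Fintype.card F : ℝ) :=
  ⟨fun F _ _ => bounds F, main⟩

end Pool.Agent.Results.MP_55cbc6_al.NotPolynomial
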